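import Mathlib
import Pool.Agent.H81.L2.Fin5
import Pool.Agent.H81.L2.Fin6
import Pool.Agent.H81.L2.Fin7
import Pool.Agent.H81.L2.Fin8

set_option autoImplicit false

namespace Pool.Agent.Results.MP_edeaa2_an.SmallDimensions

/-- For `d = 5, 6, 7, 8` and `B = 567 / 5, 5233 / 10, 2541, 12809`: every product of `d` linearly
independent real linear forms in `d` variables (the rows of `g`) takes a value of modulus less than
`|det g| / B` at some nonzero integer vector. -/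
theorem result (d : ℕ) (B : ℝ)
    (h : (d = 5 ∧ B = 567 / 5) ∨ (d = 6 ∧ B = 5233 / 10) ∨ (d = 7 ∧ B = 2541) ∨
      (d = 8 ∧ B = 12809))
    (g : Matrix (Fin d) (Fin d) ℝ) (hg : g.det ≠ 0) :
    ∃ x : Fin d → ℤ, x ≠ 0 ∧ |∏ i : Fin d, ∑ j : Fin d, g i j * (x j : ℝ)| < |g.det| / B := by
  rcases h with ⟨rfl, rfl⟩ | ⟨rfl, rfl⟩ | ⟨rfl, rfl⟩ | ⟨rfl, rfl⟩
  · exact H81.L2.final5 g hg
  · exact H81.L2.final6 g hg
  · exact H81.L2.final7 g hg
  · exact H81.L2.final8 g hg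

end Pool.Agent.Results.MP_edeaa2_an.SmallDimensions
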